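import Pool.Agent.R340.SY.Ineq

set_option autoImplicit false

/-!
The symmetry theorem for irreducible operators of arbitrary order.
-/

open Finset

namespace Pool.Agent.R340.SY

open Polynomial Pool.Agent.W432.WB Pool.Agent.W432.HK Pool.Agent.Y227.SS Pool.Agent.Y227.SO
open Pool.Agent.R340.PC (sw)

variable {m n N q : ℕ} {lam : Fin m → Fin n → ℚ} {phi : Fin n → ℚ}

/-- The sum of the residues of `u` and `-u`. -/
lemma residues_add (hq : 0 < q) (D : Option (Fin m) → Fin n → ℤ) (u : ℤ) (hu : IsCoprime u (q : ℤ)) :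
    ∑ x, ∑ l, (u * D x l) % (q : ℤ) + ∑ x, ∑ l, (-u * D x l) % (q : ℤ) =
      q * ((univ.filter fun t : Option (Fin m) × Fin n => ¬ (q : ℤ) ∣ D t.1 t.2).card : ℤ) := by
  rw [card_filter, ← Fintype.sum_prod_type' (fun x l => (u * D x l) % (q : ℤ)),
    ← Fintype.sum_prod_type' (fun x l => (-u * D x l) % (q : ℤ)), ← sum_add_distrib]
  push_cast
  rw [mul_sum]
  refine sum_congr rfl fun t _ => ?_
  rw [neg_mul, Pool.Agent.R340.P3.emod_neg_add hq]
  have h : (q : ℤ) ∣ u * D t.1 t.2 ↔ (q : ℤ) ∣ D t.1 t.2 :=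
    ⟨fun h => hu.symm.dvd_of_dvd_mul_left h, fun h => h.mul_left u⟩
  by_cases h1 : (q : ℤ) ∣ D t.1 t.2
  · rw [if_pos (h.2 h1), if_neg (not_not.2 h1), mul_zero]
  · rw [if_neg (fun h2 => h1 (h.1 h2)), if_pos h1, mul_one]

/-- The symmetry, in terms of the residues. -/
theorem symmetric_of_residues (hq : 0 < q) (D : Option (Fin m) → Fin n → ℤ)
    (hres : ∀ u : ℤ, IsCoprime u (q : ℤ) → (n : ℤ) * q ≤ ∑ x, ∑ l, (u * D x l) % q)
    (hM : (univ.filter fun t : Option (Fin m) × Fin n => ¬ (q : ℤ) ∣ D t.1 t.2).card ≤ 2 * n)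
    (hqq : q.Prime ∨ ∀ p : ℕ, p.Prime → p ∣ q → 4 * n + 1 < p) (r : ℤ) :
    (univ.filter fun t : Option (Fin m) × Fin n => (q : ℤ) ∣ D t.1 t.2 - r).card =
      (univ.filter fun t : Option (Fin m) × Fin n => (q : ℤ) ∣ D t.1 t.2 + r).card := by
  have hqz : (0 : ℤ) < q := by exact_mod_cast hq
  refine balance_all (K := 2 * n) hq (hqq.imp id fun h p hp hpq => by
    have := h p hp hpq; omega) (fun t : Option (Fin m) × Fin n => D t.1 t.2) r hM fun u hu => ?_
  have h1 := hres u hu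
  have h2 := hres (-u) hu.neg_left
  have h3 := residues_add hq D u hu
  set M := (univ.filter fun t : Option (Fin m) × Fin n => ¬ (q : ℤ) ∣ D t.1 t.2).card with hMdef
  have h4 : (q : ℤ) * M ≤ q * (2 * n) := by
    have : (M : ℤ) ≤ 2 * n := by exact_mod_cast hM
    exact mul_le_mul_of_nonneg_left this hqz.le
  have h5 : (q : ℤ) * M = q * (2 * n) := by linarith
  have h6 : ∑ x, ∑ l, (u * D x l) % (q : ℤ) = n * q := by linarith
  have h7 : ∀ t : Option (Fin m) × Fin n, sw q (u * D t.1 t.2) =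
      2 * ((u * D t.1 t.2) % q) - q * (if ¬ (q : ℤ) ∣ D t.1 t.2 then 1 else 0) := by
    intro t
    unfold sw
    have h : (q : ℤ) ∣ u * D t.1 t.2 ↔ (q : ℤ) ∣ D t.1 t.2 :=
      ⟨fun h => hu.symm.dvd_of_dvd_mul_left h, fun h => h.mul_left u⟩
    by_cases h8 : (q : ℤ) ∣ D t.1 t.2
    · rw [if_pos (h.2 h8), if_neg (not_not.2 h8), Int.emod_eq_zero_of_dvd (h.2 h8)]
      ring
    · rw [if_neg (fun h2 => h8 (h.1 h2)), if_pos h8, mul_one]
  rw [sum_congr rfl fun t _ => h7 t, sum_sub_distrib, ← mul_sum, ← mul_sum,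
    Fintype.sum_prod_type' (fun x l => (u * D x l) % (q : ℤ)), h6]
  have h9 : ((∑ t : Option (Fin m) × Fin n, if ¬ (q : ℤ) ∣ D t.1 t.2 then (1 : ℤ) else 0)) = M := by
    rw [hMdef, card_filter]
    push_cast
    rfl
  rw [h9]
  linarith

end Pool.Agent.R340.SY
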