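import Pool.Agent.R340.SY.Rough
import Pool.Agent.R340.P3.Match

set_option autoImplicit false

/-!
Vanishing sums of sawtooth functions: the family is symmetric.
-/

open Finset

namespace Pool.Agent.R340.SY

open Pool.Agent.R340.PC (sw sw_congr)
open Pool.Agent.R340.P3 (pair_any sw_neg_add)

/-- Two opposite numbers. -/
lemma pair_or {ι : Type*} [Fintype ι] [DecidableEq ι] [Nonempty ι] {N : ℕ} (hodd : Odd N)
    (hN1 : 1 < N) (hN : N.Prime ∨ ∀ p : ℕ, p.Prime → p ∣ N → 2 * Fintype.card ι + 1 < p) (D : ι → ℤ)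
    (hD : ∀ i, ¬ (N : ℤ) ∣ D i)
    (hT : ∀ c : ℤ, IsCoprime c (N : ℤ) → ∑ i, sw N (c * D i) = 0) :
    ∃ i j, i ≠ j ∧ (N : ℤ) ∣ D i + D j := by
  rcases hN with hp | hR
  · obtain ⟨j⟩ := ‹Nonempty ι›
    obtain ⟨i, hi, hd⟩ := pair_any hp hodd D hD hT j
    exact ⟨i, j, hi, hd⟩
  · exact pair_rough hN1 hodd hR D hD hT

/-- **The symmetry.** -/
theorem balance {ι : Type*} [DecidableEq ι] {N K : ℕ} (hodd : Odd N)
    (hN1 : 1 < N) (hN : N.Prime ∨ ∀ p : ℕ, p.Prime → p ∣ N → 2 * K + 1 < p) (D : ι → ℤ) (r : ℤ) :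
    ∀ (k : ℕ) (s : Finset ι), s.card = k → k ≤ K → (∀ i ∈ s, ¬ (N : ℤ) ∣ D i) →
      (∀ c : ℤ, IsCoprime c (N : ℤ) → ∑ i ∈ s, sw N (c * D i) = 0) →
      (s.filter fun i => (N : ℤ) ∣ D i - r).card = (s.filter fun i => (N : ℤ) ∣ D i + r).card := by
  intro k
  induction k using Nat.strong_induction_on with
  | _ k ih =>
    intro s hs hk hD hT
    rcases s.eq_empty_or_nonempty with rfl | hne
    · simp
    have : Nonempty s := hne.to_subtype
    obtain ⟨⟨i, hi⟩, ⟨j, hj⟩, hij, hd⟩ := pair_or (ι := s) hodd hN1 (hN.imp id (by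
        intro h p hp hpN
        rw [Fintype.card_coe, hs]
        exact lt_of_le_of_lt (by omega) (h p hp hpN))) (fun x => D x) (fun x => hD x x.2) (by
        intro c hc
        rw [← hT c hc]
        exact sum_coe_sort s (fun x => sw N (c * D x)))
    have hij' : i ≠ j := fun h => hij (Subtype.ext h)
    simp only at hd
    have hjs : j ∈ s.erase i := mem_erase.2 ⟨hij'.symm, hj⟩
    have hs2 : ((s.erase i).erase j).card = k - 2 := by
      rw [card_erase_of_mem hjs, card_erase_of_mem hi, hs]
      omega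
    have hk2 : 2 ≤ k := by
      have h1 : 1 < s.card := one_lt_card.2 ⟨i, hi, j, hj, hij'⟩
      omega
    have ih' := ih (k - 2) (by omega) ((s.erase i).erase j) hs2 (by omega)
      (fun x hx => hD x (mem_of_mem_erase (mem_of_mem_erase hx))) (by
      intro c hc
      have h1 := hT c hc
      rw [← add_sum_erase s _ hi, ← add_sum_erase (s.erase i) _ hjs] at h1
      have h2 := sw_neg_add (N := N) (by omega) (c * D i) (c * D j) (by
        rw [← mul_add]; exact hd.mul_left c)
      linarith)
    have key : ∀ (f : ι → ℕ), ∑ x ∈ s, f x = f i + f j + ∑ x ∈ (s.erase i).erase j, f x := by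
      intro f
      rw [← add_sum_erase s f hi, ← add_sum_erase (s.erase i) f hjs, add_assoc]
    rw [card_filter, card_filter] at ih' ⊢
    rw [key, key, ih']
    congr 1
    have e1 : (N : ℤ) ∣ D i - r ↔ (N : ℤ) ∣ D j + r := by
      constructor
      · intro h
        have h3 := dvd_sub hd h
        have h4 : D i + D j - (D i - r) = D j + r := by ring
        rwa [h4] at h3
      · intro h
        have h3 := dvd_sub hd h
        have h4 : D i + D j - (D j + r) = D i - r := by ring
        rwa [h4] at h3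
    have e2 : (N : ℤ) ∣ D j - r ↔ (N : ℤ) ∣ D i + r := by
      constructor
      · intro h
        have h3 := dvd_sub hd h
        have h4 : D i + D j - (D j - r) = D i + r := by ring
        rwa [h4] at h3
      · intro h
        have h3 := dvd_sub hd h
        have h4 : D i + D j - (D i + r) = D j - r := by ring
        rwa [h4] at h3
    simp only [e1, e2]
    ring

/-- The symmetry for families with zeros. -/
theorem balance_all {ι : Type*} [Fintype ι] [DecidableEq ι] {N K : ℕ} (hN0 : 0 < N)
    (hN : N.Prime ∨ ∀ p : ℕ, p.Prime → p ∣ N → 2 * K + 1 < p) (D : ι → ℤ) (r : ℤ)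
    (hK : (univ.filter fun i => ¬ (N : ℤ) ∣ D i).card ≤ K)
    (hT : ∀ c : ℤ, IsCoprime c (N : ℤ) → ∑ i, sw N (c * D i) = 0) :
    (univ.filter fun i => (N : ℤ) ∣ D i - r).card = (univ.filter fun i => (N : ℤ) ∣ D i + r).card := by
  classical
  by_cases hr : (N : ℤ) ∣ 2 * r
  · congr 1
    ext i
    simp only [mem_filter, mem_univ, true_and]
    constructor
    · intro h
      have h3 := dvd_add h hr
      have h4 : D i - r + 2 * r = D i + r := by ring
      rwa [h4] at h3
    · intro h
      have h3 := dvd_sub h hr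
      have h4 : D i + r - 2 * r = D i - r := by ring
      rwa [h4] at h3
  have hr1 : ¬ (N : ℤ) ∣ r := fun h => hr (h.mul_left 2)
  have hr2 : ¬ (N : ℤ) ∣ -r := fun h => hr1 ((dvd_neg).1 h)
  by_cases hall : ∀ i, (N : ℤ) ∣ D i
  · have e1 : (univ.filter fun i => (N : ℤ) ∣ D i - r) = ∅ := by
      rw [filter_eq_empty_iff]
      intro i _ h
      apply hr1
      have h3 := dvd_sub (hall i) h
      have h4 : D i - (D i - r) = r := by ring
      rwa [h4] at h3
    have e2 : (univ.filter fun i => (N : ℤ) ∣ D i + r) = ∅ := by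
      rw [filter_eq_empty_iff]
      intro i _ h
      apply hr1
      have h3 := dvd_sub h (hall i)
      have h4 : D i + r - D i = r := by ring
      rwa [h4] at h3
    rw [e1, e2]
  push Not at hall
  obtain ⟨i0, hi0⟩ := hall
  have hK0 : 0 < K := lt_of_lt_of_le (card_pos.2 ⟨i0, mem_filter.2 ⟨mem_univ _, hi0⟩⟩) hK
  have hN1 : 1 < N := by
    rcases Nat.lt_or_ge 1 N with h | h
    · exact h
    · exfalso
      apply hr
      have : N = 1 := by omega
      rw [this]
      exact one_dvd _
  have hodd : Odd N := by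
    rcases hN with hp | hR
    · rcases hp.eq_two_or_odd' with h2 | h2
      · exfalso
        apply hr
        rw [h2]
        exact dvd_mul_right _ _
      · exact h2
    · by_contra hne
      rw [Nat.not_odd_iff_even, even_iff_two_dvd] at hne
      have h1 := hR 2 Nat.prime_two hne
      omega
  set s := univ.filter fun i => ¬ (N : ℤ) ∣ D i with hs
  have hb := balance hodd hN1 hN D r s.card s rfl hK (fun i hi => (mem_filter.1 hi).2) (by
    intro c hc
    rw [← hT c hc, hs, sum_filter]
    refine sum_congr rfl fun i _ => ?_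
    by_cases h : (N : ℤ) ∣ D i
    · rw [if_neg (not_not.2 h)]
      unfold sw
      rw [if_pos (h.mul_left c)]
    · rw [if_pos h])
  have h1 : ∀ t : ℤ, ¬ (N : ℤ) ∣ t → (univ.filter fun i => (N : ℤ) ∣ D i - t) =
      s.filter fun i => (N : ℤ) ∣ D i - t := by
    intro t ht
    ext i
    simp only [hs, mem_filter, mem_univ, true_and]
    constructor
    · intro h
      refine ⟨fun h2 => ht ?_, h⟩
      have h3 := dvd_sub h2 h
      have h4 : D i - (D i - t) = t := by ring
      rwa [h4] at h3
    · exact fun h => h.2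
  have h2 := h1 r hr1
  have h3 := h1 (-r) hr2
  simp only [sub_neg_eq_add] at h3
  rw [h2, h3, hb]

end Pool.Agent.R340.SY
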