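import Pool.Agent.R340.SY.Balance
import Pool.Agent.R340.P3.LineR
import Pool.Agent.Y227.SO.Final

set_option autoImplicit false

/-!
The inequality for line subbundles of a stable parabolic bundle for rank one objects: the sum of the
fractional parts of the differences of the exponents.
-/

open Finset

namespace Pool.Agent.R340.SY

open Polynomial Pool.Agent.W432.WB Pool.Agent.W432.HK Pool.Agent.Y227.SS Pool.Agent.Y227.SO
open Pool.Agent.R340.P3 (line_ineq)
open Pool.Agent.R340.PC (sw)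

/-- The exponents at all the points. -/
def expo {m n : ℕ} (lam : Fin m → Fin n → ℚ) (phi : Fin n → ℚ) : Option (Fin m) → Fin n → ℚ
  | some j => lam j
  | none => fun l => -phi l

section

variable {m n N q : ℕ} {lam : Fin m → Fin n → ℚ} {phi : Fin n → ℚ}

/-- The basic inequality. -/
theorem fract_ge (hn : 2 ≤ n) (a F s : ℤ) (hF : ∑ j, ∑ l, lam j l = ∑ l, phi l + F)
    (ε : Option (Fin m) → ℚ) (hε : ∑ x, ε x = s)
    (hst : StableWeights ℂ (fun j l => (a : ℝ) * lam j l) (fun l => (a : ℝ) * phi l)) :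
    (n : ℚ) ≤ ∑ x, ∑ l, Int.fract ((a : ℚ) * (expo lam phi x l - ε x)) := by
  by_contra hlt
  push Not at hlt
  have hsum : ∑ x, ∑ l, ((a : ℚ) * (expo lam phi x l - ε x)) = a * (F - n * s) := by
    have h1 : ∑ x, ∑ l, expo lam phi x l = F := by
      rw [Fintype.sum_option]
      simp only [expo, sum_neg_distrib, hF]
      ring
    have h2 : ∑ x, ∑ _l : Fin n, ε x = n * s := by
      simp only [sum_const, card_univ, Fintype.card_fin, nsmul_eq_mul, ← mul_sum, hε]
    simp only [← mul_sum, sum_sub_distrib, h1, h2]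
  set A : ℤ := ∑ x, ∑ l, ⌊(a : ℚ) * (expo lam phi x l - ε x)⌋ with hA
  have hfr : ∑ x, ∑ l, Int.fract ((a : ℚ) * (expo lam phi x l - ε x)) = a * (F - n * s) - A := by
    rw [← hsum, hA]
    push_cast
    rw [← sum_sub_distrib]
    refine sum_congr rfl fun x _ => ?_
    rw [← sum_sub_distrib]
    rfl
  rw [hfr] at hlt
  have hlt' : a * (F - n * s) - A < n := by exact_mod_cast hlt
  have e1 : ∀ (j : Fin m) (l : Fin n), ⌈(a : ℝ) * ε (some j) - (a : ℝ) * lam j l⌉ =
      -⌊(a : ℚ) * (expo lam phi (some j) l - ε (some j))⌋ := by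
    intro j l
    rw [← Rat.floor_cast (α := ℝ), ← Int.ceil_neg]
    congr 1
    simp only [expo]
    push_cast
    ring
  have e2 : ∀ l : Fin n, ⌊∑ j, (a : ℝ) * ε (some j) - (a : ℝ) * phi l⌋ =
      ⌊(a : ℚ) * (expo lam phi none l - ε none)⌋ + a * s := by
    intro l
    rw [← Rat.floor_cast (α := ℝ), ← Int.floor_add_intCast]
    congr 1
    have h1 : ((∑ x, ε x : ℚ) : ℝ) = (s : ℝ) := by rw [hε]; norm_cast
    rw [Fintype.sum_option] at h1
    simp only [expo]
    push_cast at h1 ⊢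
    rw [← mul_sum]
    linear_combination (a : ℝ) * h1
  have h := line_ineq hn hst (fun j => (a : ℝ) * ε (some j)) (∑ j, (a : ℝ) * ε (some j)) (a * F)
    (by
      have h1 : ((∑ j, ∑ l, lam j l : ℚ) : ℝ) = ((∑ l, phi l + F : ℚ) : ℝ) := by rw [hF]
      push_cast at h1
      push_cast
      simp only [← mul_sum]
      linear_combination (a : ℝ) * h1) (by
      simp only [e1, e2, sum_add_distrib, sum_neg_distrib, sum_const, card_univ, Fintype.card_fin,
        smul_eq_mul, nsmul_eq_mul, mul_one]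
      rw [hA, Fintype.sum_option] at hlt'
      linarith)
  exact lt_irrefl _ h

lemma fract_eq {q : ℕ} (hq : 0 < q) {y : ℚ} {z : ℤ} (h : (q : ℚ) * y = z) :
    Int.fract y = ((z % q : ℤ) : ℚ) / q := by
  have hq' : (0 : ℚ) < q := by exact_mod_cast hq
  have hqz : (0 : ℤ) < q := by exact_mod_cast hq
  have h0 := Int.emod_nonneg z hqz.ne'
  have h1 := Int.emod_lt_of_pos z hqz
  rw [Int.fract_eq_iff]
  refine ⟨div_nonneg (by exact_mod_cast h0) hq'.le, ?_, z / q, ?_⟩
  · rw [div_lt_one hq']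
    exact_mod_cast h1
  · have h2 : ((q * (z / q) + z % q : ℤ) : ℚ) = z := by
      rw [Int.mul_ediv_add_emod]
    push_cast at h2
    have h3 : (q : ℚ) ≠ 0 := hq'.ne'
    field_simp
    linarith

/-- Units lift to larger moduli. -/
lemma exists_lift {q N : ℕ} (hN : 0 < N) (hqN : q ∣ N) (u : ℤ) (hu : IsCoprime u (q : ℤ)) :
    ∃ a : ℤ, IsCoprime a (N : ℤ) ∧ (q : ℤ) ∣ a - u := by
  have : NeZero N := ⟨hN.ne'⟩
  have : NeZero q := ⟨(Nat.pos_of_dvd_of_pos hqN hN).ne'⟩
  obtain ⟨w, hw⟩ := (ZMod.coe_int_isUnit_iff_isCoprime u q).2 hu.symm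
  obtain ⟨v, hv⟩ := ZMod.unitsMap_surjective hqN w
  set a : ℤ := ((v : ZMod N).val : ℤ) with ha
  have haN : ((a : ℤ) : ZMod N) = v := by rw [ha]; simp
  refine ⟨a, ?_, ?_⟩
  · refine ((ZMod.coe_int_isUnit_iff_isCoprime a N).1 ?_).symm
    rw [haN]
    exact v.isUnit
  · have hau : ((a : ℤ) : ZMod q) = ((u : ℤ) : ZMod q) := by
      rw [← hw, ← hv, ZMod.unitsMap_val, ← haN]
      rw [ZMod.cast_intCast hqN]
    rw [← ZMod.intCast_zmod_eq_zero_iff_dvd, Int.cast_sub, hau, sub_self]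

/-- The residues. -/
theorem residues_ge {b : Fin (n + 1) → ℤ[X]} {α : Fin m → AlgebraicClosure ℚ} (hm : 1 ≤ m)
    (hn : 2 ≤ n) (hF : FuchsianWith b α lam phi) (hirr : ¬ Reducible b) (hN : CommonDen lam phi N)
    (hbad : ¬ BadClass b N) {ε : Option (Fin m) → ℚ} {s : ℤ} (hε : ∑ x, ε x = s) (hq : 0 < q)
    {D : Option (Fin m) → Fin n → ℤ} (hD : ∀ x l, (q : ℚ) * (expo lam phi x l - ε x) = D x l)
    {F : ℤ} (hFu : ∑ j, ∑ l, lam j l = ∑ l, phi l + F) (u : ℤ) (hu : IsCoprime u (q : ℤ)) :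
    (n : ℤ) * q ≤ ∑ x, ∑ l, (u * D x l) % q := by
  have hq' : (0 : ℚ) < q := by exact_mod_cast hq
  obtain ⟨a, ha, hau⟩ := exists_lift (q := q) (N := q * N) (Nat.mul_pos hq hN.1)
    (dvd_mul_right _ _) u hu
  have haN : IsCoprime a (N : ℤ) := IsCoprime.of_isCoprime_of_dvd_right ha (by
    push_cast; exact dvd_mul_left _ _)
  have hst : StableWeights ℂ (fun j l => (a : ℝ) * lam j l) (fun l => (a : ℝ) * phi l) := by
    by_contra hst
    exact hbad ⟨a, haN, bad_class (by omega) (by omega) hF hN a (Or.inr ⟨hirr, hst⟩)⟩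
  have h1 := fract_ge hn a F s hFu ε hε hst
  have h2 : ∀ x l, Int.fract ((a : ℚ) * (expo lam phi x l - ε x)) =
      (((u * D x l) % q : ℤ) : ℚ) / q := by
    intro x l
    rw [fract_eq hq (z := a * D x l) (by rw [← mul_assoc, mul_comm (q : ℚ), mul_assoc, hD]; push_cast; rfl)]
    congr 2
    refine Pool.Agent.R340.P3.emod_congr ?_
    rw [← sub_mul]
    exact hau.mul_right _
  simp only [h2, ← sum_div] at h1
  rw [le_div_iff₀ hq'] at h1
  exact_mod_cast h1

/-- The Fuchs relation: the difference of the sums of the exponents is an integer. -/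
lemma fuchs_int {b : Fin (n + 1) → ℤ[X]} {α : Fin m → AlgebraicClosure ℚ} (hm : 1 ≤ m)
    (hn : 2 ≤ n) (hF : FuchsianWith b α lam phi) :
    ∃ F : ℤ, ∑ j, ∑ l, lam j l = ∑ l, phi l + F := by
  obtain ⟨-, Q, hFu, hE⟩ := hF
  have h := fuchs (by omega) (by omega) hFu.inj hFu.last hFu.deg hE.1 hE.2
  refine ⟨n * ((n - 1) * (m - 1) : ℕ) - ∑ i, (cw m n i : ℤ), ?_⟩
  rw [sum_add_distrib, sum_const, card_univ, Fintype.card_fin, nsmul_eq_mul] at h
  push_cast at h ⊢
  linarith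

end

end Pool.Agent.R340.SY
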